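import Pool.Agent.Helper25.SC.Stm2

/-!
# The Schur property does not pass to vector-valued Lipschitz-free spaces

There are a compact metric space `M` and a Banach space `X` such that the Lipschitz-free space
`F(M)` and `X` have the Schur property, but the completed projective tensor product of `F(M)` and
`X` (that is, the vector-valued Lipschitz-free space `F(M, X)`) does not.

`M` is a snowflake of a compact subset of a subspace `D` of `c₀` without the approximation
property (Davie), `F(M)` also fails the approximation property, and `X` is a Bourgain-Delbaen sum
of copies of the dual of `D`.
-/

set_option autoImplicit false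
set_option maxSynthPendingDepth 3

namespace Pool.Agent.Results.MP_e3c06a_an.NotSchur

open Pool.Agent.Helper25.SC.Stm

/-- There are a compact metric space `M` with a base point `o`, its Lipschitz-free space `F`, a
Banach space `X`, and the completed projective tensor product `T` of `F` and `X`, such that `F` and
`X` have the Schur property but `T` does not. -/
theorem result : ∃ (M : Type) (_ : MetricSpace M) (_ : CompactSpace M) (o : M)
    (F : Type) (_ : NormedAddCommGroup F) (_ : NormedSpace ℝ F) (_ : CompleteSpace F)
    (X : Type) (_ : NormedAddCommGroup X) (_ : NormedSpace ℝ X) (_ : CompleteSpace X)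
    (T : Type) (_ : NormedAddCommGroup T) (_ : NormedSpace ℝ T) (_ : CompleteSpace T),
    IsFreeSpace M o F ∧ IsProjTensor F X T ∧ Schur F ∧ Schur X ∧ ¬ Schur T :=
  Pool.Agent.Helper25.SC.main'

end Pool.Agent.Results.MP_e3c06a_an.NotSchur
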